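import Pool.Agent.X194.RT.Quot

/-!
MP_2aa58c_an, Q2 (and hence Q1): the answer is **no**.  There is a nilpotent Lie group `G`
(`G = ℤ ⋉ 𝕋²`, two-step nilpotent, Polish, with an open normal subgroup isomorphic to the
two-torus), discrete cocompact subgroups `Γ₁, Γ₂`, an element `τ` whose translations of `G ⧸ Γ₁`
and of `G ⧸ Γ₂` are minimal, open sets `U₁, U₂` with asymmetric closure and points `x₁, x₂` with
the same return times, although `G ⧸ Γ₁` and `G ⧸ Γ₂` are not even homeomorphic.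
-/

namespace Pool.Agent.Results.MP_2aa58c_an.ReturnTimesNotReconstructing

open Pool.Agent.X194.RT
open scoped Pointwise

/-- The translation `x ↦ τ • x` of `G ⧸ Γ` is minimal. -/
def IsMinimalTranslation {G : Type} [Group G] [TopologicalSpace G] (Γ : Subgroup G) (τ : G) :
    Prop :=
  ∀ x : G ⧸ Γ, Dense (Set.range fun m : ℤ => τ ^ m • x)

/-- Every `g` with `g • closure U = closure U` acts trivially on `G ⧸ Γ`. -/
def HasAsymmetricClosure {G : Type} [Group G] [TopologicalSpace G] (Γ : Subgroup G)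
    (U : Set (G ⧸ Γ)) : Prop :=
  ∀ g : G, g • closure U = closure U → ∀ x : G ⧸ Γ, g • x = x

theorem result :
    ∃ (G : Type) (_ : Group G) (_ : TopologicalSpace G) (_ : IsTopologicalGroup G)
      (_ : PolishSpace G),
      Group.IsNilpotent G ∧
      (∃ O : Subgroup G, IsOpen (O : Set G) ∧ O.Normal ∧
        Nonempty (Multiplicative (UnitAddCircle × UnitAddCircle) ≃ₜ* O)) ∧
      ∃ (Γ₁ Γ₂ : Subgroup G) (τ : G) (U₁ : Set (G ⧸ Γ₁)) (U₂ : Set (G ⧸ Γ₂))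
        (x₁ : G ⧸ Γ₁) (x₂ : G ⧸ Γ₂),
        DiscreteTopology Γ₁ ∧ DiscreteTopology Γ₂ ∧
        CompactSpace (G ⧸ Γ₁) ∧ CompactSpace (G ⧸ Γ₂) ∧
        IsMinimalTranslation Γ₁ τ ∧ IsMinimalTranslation Γ₂ τ ∧
        IsOpen U₁ ∧ IsOpen U₂ ∧
        HasAsymmetricClosure Γ₁ U₁ ∧ HasAsymmetricClosure Γ₂ U₂ ∧
        {m : ℤ | τ ^ m • x₁ ∈ U₁} = {m : ℤ | τ ^ m • x₂ ∈ U₂} ∧
        IsEmpty ((G ⧸ Γ₁) ≃ₜ (G ⧸ Γ₂)) := by
  refine ⟨G, inferInstance, inferInstance, inferInstance, inferInstance, nilp,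
    ⟨O, O_open, O_normal, ⟨O_iso⟩⟩, Gam 1, Gam 2, tau, U 1, U 2, QuotientGroup.mk 1,
    QuotientGroup.mk 1, Gam_disc 1, Gam_disc 2, compact_quot 1 one_pos, compact_quot 2 two_pos,
    minimal_one, minimal_two, U_open 1, U_open 2, ?_, ?_, ?_, not_homeo⟩
  · intro g hg x
    rw [asym 1 g hg, one_smul]
  · intro g hg x
    rw [asym 2 g hg, one_smul]
  · ext m
    show c 1 (tau ^ m • (QuotientGroup.mk 1 : G ⧸ Gam 1)) ∈ V0 ×ˢ V0 ↔
      c 2 (tau ^ m • (QuotientGroup.mk 1 : G ⧸ Gam 2)) ∈ V0 ×ˢ V0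
    rw [c_smul, c_smul]
    exact Iff.rfl

end Pool.Agent.Results.MP_2aa58c_an.ReturnTimesNotReconstructing
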